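import Mathlib

namespace Pool.Agent.Results.MP_4423d6_an.Q2

open Filter Topology Real Set

/-- The Winfree vector field. -/
noncomputable def W {N : ℕ} (Ω : Fin N → ℝ) (κ : ℝ) (θ : Fin N → ℝ) (i : Fin N) : ℝ :=
  Ω i - κ / N * ∑ j, (1 + cos (θ j)) * sin (θ i)

/-- The solution from `Θ` converges. -/
def Conv {N : ℕ} (Θ Ω : Fin N → ℝ) (κ : ℝ) : Prop :=
  ∃ θ : ℝ → Fin N → ℝ, θ 0 = Θ ∧ ∀ i, ContinuousOn (θ · i) (Ici 0) ∧
    (∀ t > 0, HasDerivAt (θ · i) (W Ω κ (θ t) i) t) ∧ ∃ L, Tendsto (θ · i) atTop (𝓝 L)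

/-- `inf {k > 0 : P κ for all κ > k}` in `[0, ∞]`. -/
noncomputable def thr (P : ℝ → Prop) : ENNReal :=
  ⨅ (k : ℝ) (_ : 0 < k) (_ : ∀ κ > k, P κ), ENNReal.ofReal k

/-- Critical coupling strength. -/
noncomputable def kc {N : ℕ} (Ω : Fin N → ℝ) : ENNReal := thr fun κ => ∃ θ, ∀ i, W Ω κ θ i = 0

/-- Pathwise critical coupling strength. -/
noncomputable def kpc {N : ℕ} (Θ Ω : Fin N → ℝ) : ENNReal := thr (Conv Θ Ω)

lemma stay {f g : ℝ → ℝ} {C : ℝ} (c : ContinuousOn f (Ici 0)) (d : ∀ t > 0, HasDerivAt f (g t) t)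
    (h : ∀ t, |g t| ≤ C * |f t|) (z : f 0 = 0) : ∀ t ≥ 0, f t = 0 := by
  intro t ht
  have : AntitoneOn (fun t => f t ^ 2 * exp (-(2 * C) * t)) (Ici 0) := by
    have D (t) (ht : t ∈ interior (Ici (0 : ℝ))) := ((d t (by simpa using ht)).pow 2).mul
      ((hasDerivAt_id t).const_mul (-(2 * C))).exp
    refine antitoneOn_of_hasDerivWithinAt_nonpos (convex_Ici 0) (by fun_prop)
      (fun t ht => (D t ht).hasDerivWithinAt) fun t _ => ?_
    have e := exp_pos (-(2 * C) * t)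
    have h1 : f t * g t ≤ C * f t ^ 2 := by
      have := mul_le_mul_of_nonneg_left (h t) (abs_nonneg (f t))
      rw [← abs_mul, mul_left_comm, ← sq, sq_abs] at this
      exact (le_abs_self _).trans this
    simp only [id, Pi.pow_apply, Nat.cast_ofNat, Nat.add_one_sub_one, pow_one]
    nlinarith
  have := this self_mem_Ici ht ht
  simp only [z] at this
  have e := exp_pos (-(2 * C) * t)
  by_contra n
  have := mul_pos (sq_pos_of_ne_zero n) e
  linarith

lemma main (n : ℕ) : ∃ Θ Ω : Fin (n + 1) → ℝ, ‖Ω‖ = 1 ∧ kc Ω ≤ 1 ∧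
    ENNReal.ofReal ((n + 1) / 2) ≤ kpc Θ Ω := by
  have N0 : (0 : ℝ) < n + 1 := by positivity
  refine ⟨Fin.cons 0 fun _ => π, Pi.single 0 1, by simp [Pi.norm_single], ?_, ?_⟩
  · refine iInf_le_of_le (1 : ℝ) (iInf_le_of_le one_pos (iInf_le_of_le ?_ (by simp)))
    intro κ hκ
    obtain ⟨s, -, hs⟩ := intermediate_value_Icc (a := 0) (b := π / 2) (by positivity)
      (f := fun s => κ / (n + 1) * ((1 + cos s + 2 * n) * sin s)) (by fun_prop)
      (show (1 : ℝ) ∈ _ by
        simp only [mem_Icc, sin_zero, cos_pi_div_two, sin_pi_div_two]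
        refine ⟨by simp, ?_⟩
        rw [div_mul_eq_mul_div, le_div_iff₀ N0]
        nlinarith [n.cast_nonneg (α := ℝ)])
    refine ⟨Fin.cons s fun _ => 0, fun i => ?_⟩
    refine Fin.cases ?_ (fun i => ?_) i
    · simp [W, Fin.sum_univ_succ] at hs ⊢
      linarith
    · simp [W]
  · refine le_iInf fun k => le_iInf fun k0 => le_iInf fun h => ENNReal.ofReal_le_ofReal ?_
    by_contra hk
    obtain ⟨κ, a, b⟩ := exists_between (not_le.1 hk)
    obtain ⟨θ, z, H⟩ := h κ a
    have κ0 : 0 < κ := k0.trans a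
    have st (i : Fin n) : ∀ t ≥ 0, θ t i.succ - π = 0 := by
      refine stay (C := 2 * κ) ((H _).1.sub continuousOn_const)
        (fun t ht => ((H _).2.1 t ht).sub_const π) (fun t => ?_) (by simp [z])
      have s1 : |sin (θ t i.succ)| ≤ |θ t i.succ - π| := by
        have := abs_sin_le_abs (x := θ t i.succ - π)
        rwa [sin_sub_pi, abs_neg] at this
      have s2 : |∑ j, (1 + cos (θ t j))| ≤ 2 * (n + 1) := by
        refine (Finset.abs_sum_le_sum_abs _ _).trans ((Finset.sum_le_card_nsmul _ _ 2 fun j _ =>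
          abs_le.2 ⟨by linarith [neg_one_le_cos (θ t j)], by linarith [cos_le_one (θ t j)]⟩).trans ?_)
        simp [mul_comm]
      simp only [W, ← Finset.sum_mul, Pi.single_eq_of_ne (Fin.succ_ne_zero i), zero_sub, abs_neg, abs_mul]
      rw [abs_of_pos (by positivity)]
      calc _ ≤ κ / ((n + 1 : ℕ) : ℝ) * (2 * (n + 1) * |θ t i.succ - π|) := by gcongr
        _ = _ := by push_cast; field_simp
    set δ := 1 - κ / (n + 1) * 2
    have δ0 : 0 < δ := by
      have : κ / (n + 1) < 1 / 2 := by rw [div_lt_iff₀ N0]; linarith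
      simp only [δ]; linarith
    obtain ⟨c, d, L, l⟩ := H 0
    have mono : MonotoneOn (fun t => θ t 0 - δ * t) (Ici 0) := by
      refine monotoneOn_of_hasDerivWithinAt_nonneg (convex_Ici 0) (c.sub (by fun_prop))
        (fun t ht => ((d t (by simpa using ht)).sub ((hasDerivAt_id t).const_mul δ)).hasDerivWithinAt)
        fun t ht => ?_
      have e (i : Fin n) : θ t i.succ = π := sub_eq_zero.1 (st i t (le_of_lt (by simpa using ht)))
      have : (1 + cos (θ t 0)) * sin (θ t 0) ≤ 2 := by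
        nlinarith [neg_one_le_cos (θ t 0), cos_le_one (θ t 0), sin_le_one (θ t 0)]
      have := mul_le_mul_of_nonneg_left this (show 0 ≤ κ / (n + 1) by positivity)
      simp [W, Fin.sum_univ_succ, e, δ]
      linarith
    have : Tendsto (θ · 0) atTop atTop :=
      tendsto_atTop_mono' _ ((eventually_ge_atTop 0).mono fun t ht => by
        have := mono self_mem_Ici ht ht
        simp only [id, mul_zero, sub_zero] at this ⊢
        linarith) (tendsto_atTop_add_const_left _ (θ 0 0) (tendsto_id.const_mul_atTop δ0))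
    exact not_tendsto_atTop_of_tendsto_nhds l this

theorem result : (¬ ∀ N ≥ 1, ∀ Θ Ω : Fin N → ℝ, kc Ω = kpc Θ Ω) ∧
    ∀ n : ℕ, ∃ Θ Ω : Fin (n + 1) → ℝ, ‖Ω‖ = 1 ∧ kc Ω ≤ 1 ∧
      ENNReal.ofReal ((n + 1) / 2) ≤ kpc Θ Ω := by
  refine ⟨fun h => ?_, main⟩
  obtain ⟨Θ, Ω, -, a, b⟩ := main 3
  have := (b.trans (h 4 (by norm_num) Θ Ω).ge).trans a
  norm_num at this

end Pool.Agent.Results.MP_4423d6_an.Q2
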